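import Pool.Agent.H2.KM.Targets

/-! SYL: the symmetrizer is symmetric in the second word (board kim_modules, MP_fd35e1_ag). -/

set_option autoImplicit false

namespace Pool.Agent.H46.KM

open Matrix Pool.Agent.H2.NL Pool.Agent.H2.KM Pool.Agent.H64.CC

namespace SYL

variable {K : Type} [Field K] {J : Type} (o : J → Bool)

private def Phi (ψ : J → List J → K) (v : List J) : K :=
  ((sel K o v).map fun x => x.1 * ψ x.2.1 x.2.2).sum

private theorem Phi_nil (ψ : J → List J → K) : Phi o ψ [] = 0 := by
  simp [Phi, sel]

private theorem Phi_cons (ψ : J → List J → K) (b : J) (l : List J) :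
    Phi o ψ (b :: l) = ψ b l + Phi o (fun a l' => ks K (o b) (o a) * ψ a (b :: l')) l := by
  unfold Phi
  rw [sel, List.map_cons, List.sum_cons, List.map_map, one_mul]
  congr 2
  refine List.map_congr_left fun x _ => ?_
  simp only [Function.comp]
  ring

private theorem Phi_mul (ψ : J → List J → K) (c : K) (l : List J) :
    Phi o (fun a l' => c * ψ a l') l = c * Phi o ψ l := by
  unfold Phi
  rw [← List.sum_map_mul_left]
  congr 1
  refine List.map_congr_left fun x _ => ?_
  ring

private theorem Phi_congr (ψ ψ' : J → List J → K) (h : ∀ a l, ψ a l = ψ' a l) (l : List J) :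
    Phi o ψ l = Phi o ψ' l := by
  have : ψ = ψ' := funext fun a => funext fun l => h a l
  rw [this]

private theorem Phi_symm : ∀ (j : ℕ) (ψ : J → List J → K),
    (∀ a i v, sgx K o i v * ψ a (ex i v) = ψ a v) →
    ∀ v, sgx K o j v * Phi o ψ (ex j v) = Phi o ψ v
  | 0, ψ, hψ, [] => by simp [sgx, ex]
  | 0, ψ, hψ, [a] => by simp [sgx, ex]
  | 0, ψ, hψ, b :: c :: r => by
    have hs : ∀ a l, ψ a (b :: c :: l) = ks K (o b) (o c) * ψ a (c :: b :: l) := fun a l => by
      have := hψ a 0 (b :: c :: l)
      simp only [sgx, ex] at this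
      exact this.symm
    simp only [sgx, ex, Phi_cons]
    have h1 : Phi o (fun a l' => ks K (o b) (o a) * (ks K (o c) (o a) * ψ a (b :: c :: l'))) r =
        ks K (o b) (o c) *
          Phi o (fun a l' => ks K (o c) (o a) * (ks K (o b) (o a) * ψ a (c :: b :: l'))) r := by
      rw [← Phi_mul]
      refine Phi_congr o _ _ (fun a l => ?_) r
      rw [hs]
      ring
    have h2 : ks K (o b) (o c) * ks K (o c) (o b) = 1 := by
      rw [ks_comm (o c) (o b)]
      exact ks_sq _ _
    have h3 : Phi o (fun a l' => ks K (o c) (o a) * (ks K (o b) (o a) * ψ a (b :: c :: l'))) r =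
        Phi o (fun a l' => ks K (o b) (o a) * (ks K (o c) (o a) * ψ a (b :: c :: l'))) r :=
      Phi_congr o _ _ (fun a l => by ring) r
    have h4 : Phi o (fun a l' => ks K (o b) (o a) * (ks K (o c) (o a) * ψ a (c :: b :: l'))) r =
        Phi o (fun a l' => ks K (o c) (o a) * (ks K (o b) (o a) * ψ a (c :: b :: l'))) r :=
      Phi_congr o _ _ (fun a l => by ring) r
    linear_combination (ψ b (c :: r)) * h2 + ks K (o b) (o c) * h4 - h1 - h3
  | j + 1, ψ, hψ, [] => by simp [sgx, ex]
  | j + 1, ψ, hψ, b :: r => by
    simp only [sgx, ex, Phi_cons]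
    have h1 := Phi_symm j (fun a l' => ks K (o b) (o a) * ψ a (b :: l')) (fun a i v => by
      have := hψ a (i + 1) (b :: v)
      simp only [sgx, ex] at this
      calc _ = ks K (o b) (o a) * (sgx K o i v * ψ a (b :: ex i v)) := by ring
        _ = _ := by rw [this]) r
    have h2 := hψ b j r
    rw [mul_add, h1, h2]

end SYL

open SYL in
theorem pf_SYL : T_SYL := by
  intro K _ I J o f u
  induction u with
  | nil =>
    intro j v
    rw [sw_eq]
    cases v with
    | nil =>
      cases j <;> simp [sgx, ex]
    | cons b l =>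
      have h1 : sp o f ([] : List I) (b :: l) = 0 := by rw [sp]
      have h2 : ∀ w : List J, w.length = l.length + 1 → sp o f ([] : List I) w = 0 := by
        intro w hw
        cases w with
        | nil => simp at hw
        | cons c w => rw [sp]
      rw [h1, h2 _ (by rw [ex_length]; rfl), mul_zero]
  | cons a u ih =>
    intro j v
    rw [sw_eq]
    have h1 : ∀ v, sp o f (a :: u) v = Phi o (fun b l => f a b * sp o f u l) v := by
      intro v
      rw [sp, Phi]
      congr 1
      refine List.map_congr_left fun x _ => ?_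
      ring
    rw [h1, h1]
    refine Phi_symm o j _ (fun b i w => ?_) v
    have := ih i w
    rw [sw_eq] at this
    calc _ = f a b * (sgx K o i w * sp o f u (ex i w)) := by ring
      _ = _ := by rw [this]

end Pool.Agent.H46.KM
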